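import Pool.Agent.H673R2.OneTT.Sep5

set_option autoImplicit false

/-!
# Relative to a random oracle, completeness for `NP` changes exactly at two questions

Idea of the proof (`Pool.Agent.H673R2.OneTT`). A reduction with one question to `B` either asks
positively (`x ∈ L ↔ y ∈ B`) or negatively (`x ∈ L ↔ y ∉ B`). A set in `NP` with random seeds is
reduced to `B`; if the reduction asked negatively at a set of seeds of positive density, then the
witnesses which put `y` into `B` would prove that some string read off the oracle is not a value of
a length-doubling function read off the oracle, and with high probability there are no such short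
proofs. So for most of the seeds the reduction asks positively, and the seed can be read off a part
of the oracle which is out of its reach.
-/

namespace Pool.Agent.Results.MP_675993_lc.RandomOracleOneTwo

open MeasureTheory Pool.Agent.NPC Pool.Agent.H628R3.RO

open Classical in
/-- The answer to the question whether `y` is in `B`, a string with one bit. -/
noncomputable def ans (B : Set (List Bool)) (y : List Bool) : List Bool := [decide (y ∈ B)]

/-- `L` reduces to `B`, relative to the oracle `A`, with one question to `B`: `Q x` is the question
and `H` decides from `x` and the answer. -/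
def OneQuestion (A : Oracle) (L B : Set (List Bool)) : Prop :=
  ∃ Q H : List Bool → List Bool, IsFP A Q ∧ IsFP A H ∧
    ∀ x, x ∈ L ↔ H (pairBits x (ans B (Q x))) = [true]

/-- `L` reduces to `B`, relative to the oracle `A`, with two questions to `B`: `Q₁ x` is the first
question, `Q₂` computes the second one from `x` and the answer to the first one, and `H` decides
from `x` and the two answers. -/
def TwoQuestions (A : Oracle) (L B : Set (List Bool)) : Prop :=
  ∃ Q₁ Q₂ H : List Bool → List Bool, IsFP A Q₁ ∧ IsFP A Q₂ ∧ IsFP A H ∧
    ∀ x, x ∈ L ↔ H (pairBits x (ans B (Q₁ x) ++ ans B (Q₂ (pairBits x (ans B (Q₁ x)))))) = [true]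

/-- `L` reduces to `B`, relative to the oracle `A`, by a one-one and length-increasing function
computable in polynomial time relative to `A`. -/
def OneOneRed (A : Oracle) (L B : Set (List Bool)) : Prop :=
  ∃ F : List Bool → List Bool, IsFP A F ∧ Function.Injective F ∧
    (∀ x, x.length < (F x).length) ∧ ∀ x, x ∈ L ↔ F x ∈ B

/-- For almost every oracle `A`: every set in `NP` which is complete under reductions with one
question is complete under one-one length-increasing many-one reductions, and some set is complete
under (polynomial-time Turing) reductions with two questions but not under reductions with one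
question. -/
theorem result : ∀ᵐ A ∂randomOracle,
    (∀ B : Set (List Bool), IsNP A B → (∀ L : Set (List Bool), IsNP A L → OneQuestion A L B) →
      ∀ L : Set (List Bool), IsNP A L → OneOneRed A L B) ∧
    ∃ C : Set (List Bool), IsNP A C ∧ (∀ L : Set (List Bool), IsNP A L → TwoQuestions A L C) ∧
      ∃ L : Set (List Bool), IsNP A L ∧ ¬ OneQuestion A L C := by
  filter_upwards [Pool.Agent.H673R2.OneOne.ae_Good, Pool.Agent.H673R2.OneTT.ae_NB,
    Pool.Agent.H673R2.OneTT.ae_not_red] with A hA hN hD
  have key : ∀ B : Set (List Bool), IsNP A B →
      (∀ L : Set (List Bool), IsNP A L → OneQuestion A L B) →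
      ∀ L : Set (List Bool), IsNP A L → OneOneRed A L B := by
    intro B hB hh L hL
    exact Pool.Agent.H673R2.OneTT.one_question hA hN hB hh hL
  refine ⟨key, Pool.Agent.H673R2.OneTT.DD A, Pool.Agent.H673R2.OneTT.isNP_DD A,
    fun L hL => Pool.Agent.H673R2.OneTT.red2T_DD hL, ?_⟩
  by_contra hcon
  push Not at hcon
  obtain ⟨F, h1, -, -, h4⟩ := key _ (Pool.Agent.H673R2.OneTT.isNP_DD A) hcon _
    (Pool.Agent.H673R2.OneTT.isNP_Hs A 5)
  exact hD ⟨F, h1, h4⟩

end Pool.Agent.Results.MP_675993_lc.RandomOracleOneTwo
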